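import Mathlib
import Pool.Agent.Q167.VC.Stm
import Pool.Agent.Q42.VC.Par

/-! Project VC, job DOM (helper129): domination for the family. -/

namespace Pool.Agent.Q129.VC.Dom

open Pool.Agent.Q167.VC

theorem h_eq (α b : ℝ) : -2 * Complex.cos ((α : ℂ) - b * Complex.I)
    = ((-2 * (Real.cos α * Real.cosh b) : ℝ) : ℂ)
      + ((-2 * (Real.sin α * Real.sinh b) : ℝ) : ℂ) * Complex.I := by
  rw [Pool.Agent.Q42.VC.cos_ab]
  push_cast; ring

theorem norm_sq_add (r s t : ℝ) : ‖((r : ℝ) : ℂ) + ((s : ℝ) : ℂ) * Complex.I + (t : ℂ)‖ ^ 2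
    = (r + t) ^ 2 + s ^ 2 := by
  rw [← Complex.normSq_eq_norm_sq, Complex.normSq_apply]
  simp
  ring

theorem al_eq {α b : ℝ} (h0 : 0 ≤ α) (h1 : α ≤ Real.pi) :
    al (-2 * Complex.cos ((α : ℂ) - b * Complex.I)) = α := by
  have hb := Real.one_le_cosh b
  have hc1 := Real.cos_le_one α
  have hc2 := Real.neg_one_le_cos α
  have hch : Real.cosh b ^ 2 = 1 + Real.sinh b ^ 2 := by have := Real.cosh_sq b; linarith
  have hsc := Real.sin_sq_add_cos_sq α
  have e1 : ‖-2 * Complex.cos ((α : ℂ) - b * Complex.I) - 2‖ = 2 * (Real.cosh b + Real.cos α) := by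
    rw [← abs_of_nonneg (norm_nonneg _), ← abs_of_nonneg (by linarith : 0 ≤ 2 * (Real.cosh b + Real.cos α)),
      ← sq_eq_sq_iff_abs_eq_abs, h_eq]
    have := norm_sq_add (-2 * (Real.cos α * Real.cosh b)) (-2 * (Real.sin α * Real.sinh b)) (-2)
    rw [show ((-2 * (Real.cos α * Real.cosh b) : ℝ) : ℂ)
      + ((-2 * (Real.sin α * Real.sinh b) : ℝ) : ℂ) * Complex.I - 2 =
      ((-2 * (Real.cos α * Real.cosh b) : ℝ) : ℂ)
      + ((-2 * (Real.sin α * Real.sinh b) : ℝ) : ℂ) * Complex.I + ((-2 : ℝ) : ℂ) by push_cast; ring,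
      this]
    have h2 : Real.sinh b ^ 2 = Real.cosh b ^ 2 - 1 := by linarith
    have h3 : Real.sin α ^ 2 = 1 - Real.cos α ^ 2 := by linarith
    rw [mul_pow (-2 : ℝ) (Real.sin α * Real.sinh b), mul_pow (Real.sin α), h2, h3]
    ring
  have e2 : ‖-2 * Complex.cos ((α : ℂ) - b * Complex.I) + 2‖ = 2 * (Real.cosh b - Real.cos α) := by
    rw [← abs_of_nonneg (norm_nonneg _), ← abs_of_nonneg (by linarith : 0 ≤ 2 * (Real.cosh b - Real.cos α)),
      ← sq_eq_sq_iff_abs_eq_abs, h_eq]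
    have := norm_sq_add (-2 * (Real.cos α * Real.cosh b)) (-2 * (Real.sin α * Real.sinh b)) 2
    rw [show ((-2 * (Real.cos α * Real.cosh b) : ℝ) : ℂ)
      + ((-2 * (Real.sin α * Real.sinh b) : ℝ) : ℂ) * Complex.I + 2 =
      ((-2 * (Real.cos α * Real.cosh b) : ℝ) : ℂ)
      + ((-2 * (Real.sin α * Real.sinh b) : ℝ) : ℂ) * Complex.I + ((2 : ℝ) : ℂ) by push_cast; ring,
      this]
    have h2 : Real.sinh b ^ 2 = Real.cosh b ^ 2 - 1 := by linarith
    have h3 : Real.sin α ^ 2 = 1 - Real.cos α ^ 2 := by linarith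
    rw [mul_pow (-2 : ℝ) (Real.sin α * Real.sinh b), mul_pow (Real.sin α), h2, h3]
    ring
  unfold al
  rw [e1, e2, show (2 * (Real.cosh b + Real.cos α) - 2 * (Real.cosh b - Real.cos α)) / 4
    = Real.cos α by ring, Real.arccos_cos h0 h1]

theorem WW_eq (c α b : ℝ) :
    ‖(c : ℂ) - -2 * Complex.cos ((α : ℂ) - b * Complex.I)‖ ^ 2 = WW c α b := by
  have e : (c : ℂ) - -2 * Complex.cos ((α : ℂ) - b * Complex.I)
      = ((2 * (Real.cos α * Real.cosh b) : ℝ) : ℂ)
      + ((2 * (Real.sin α * Real.sinh b) : ℝ) : ℂ) * Complex.I + (c : ℂ) := by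
    rw [h_eq]; push_cast; ring
  rw [e, norm_sq_add]
  have hch : Real.cosh b ^ 2 = 1 + Real.sinh b ^ 2 := by have := Real.cosh_sq b; linarith
  have h3 : Real.sin α ^ 2 = 1 - Real.cos α ^ 2 := by
    have := Real.sin_sq_add_cos_sq α; linarith
  unfold WW
  have e1 : (2 * (Real.cos α * Real.cosh b) + c) ^ 2 = 4 * Real.cos α ^ 2 * Real.cosh b ^ 2
      + 4 * c * (Real.cos α * Real.cosh b) + c ^ 2 := by ring
  have e2 : (2 * (Real.sin α * Real.sinh b)) ^ 2 = 4 * (Real.sin α ^ 2 * Real.sinh b ^ 2) := by ring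
  rw [e1, e2, hch, h3]
  ring

/-- the eigenvalues at `φ = 0`. -/
theorem zero_root {p : ℕ} (hp : 1 ≤ p) {h : ℂ} (hr : PP h p = PP h (p - 1)) {m : ℕ}
    (hs : |al h - ((m : ℝ) + 1) * Real.pi / p| < Real.pi / (2 * p)) :
    h = ((-2 * Real.cos (((m : ℝ) + 1) * Real.pi / p) : ℝ) : ℂ) := by
  have hpi := Real.pi_pos
  obtain ⟨q, rfl⟩ : ∃ q, p = q + 1 := ⟨p - 1, by omega⟩
  have hp' : (0 : ℝ) < ((q + 1 : ℕ) : ℝ) := by positivity
  have hpc : (((q + 1 : ℕ) : ℝ) : ℂ) ≠ 0 := by exact_mod_cast hp'.ne'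
  obtain ⟨δ, hδ⟩ := Complex.cos_surjective (-h / 2)
  have hh : h = -2 * Complex.cos δ := by rw [hδ]; ring
  have hk : ∃ k : ℤ, δ = ((k * Real.pi / ((q + 1 : ℕ) : ℝ) : ℝ) : ℂ) := by
    obtain ⟨h1, h2⟩ := Pool.Agent.Q42.VC.pp_sin δ q
    rw [← hh] at h1 h2
    rw [Nat.add_sub_cancel] at hr
    rw [hr, h1] at h2
    have h3 : Complex.sin ((((q + 1 : ℕ) : ℝ) : ℂ) * δ) * Complex.cos (δ / 2) = 0 := by
      have h4 : Complex.sin (((q : ℂ) + 1 + 1 / 2) * δ) + Complex.sin (((q : ℂ) + 1 / 2) * δ) = 0 := by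
        have h5 : ((-1 : ℂ)) ^ q ≠ 0 := pow_ne_zero _ (by norm_num)
        have h6 : (-1 : ℂ) ^ q * (Complex.sin (((q : ℂ) + 1 + 1 / 2) * δ)
            + Complex.sin (((q : ℂ) + 1 / 2) * δ)) = 0 := by
          rw [pow_succ] at h2
          linear_combination h2
        exact (mul_eq_zero.mp h6).resolve_left h5
      have e1 : ((q : ℂ) + 1 + 1 / 2) * δ = (((q + 1 : ℕ) : ℝ) : ℂ) * δ + δ / 2 := by
        push_cast; ring
      have e2 : ((q : ℂ) + 1 / 2) * δ = (((q + 1 : ℕ) : ℝ) : ℂ) * δ - δ / 2 := by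
        push_cast; ring
      rw [e1, e2, Complex.sin_add, Complex.sin_sub] at h4
      linear_combination (1 / 2 : ℂ) * h4
    rcases mul_eq_zero.mp h3 with h4 | h4
    · obtain ⟨k, hk⟩ := Complex.sin_eq_zero_iff.mp h4
      refine ⟨k, ?_⟩
      push_cast
      push_cast at hpc hk
      field_simp
      linear_combination hk
    · obtain ⟨k, hk⟩ := Complex.cos_eq_zero_iff.mp h4
      refine ⟨(2 * k + 1) * (q + 1), ?_⟩
      push_cast
      push_cast at hpc
      field_simp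
      linear_combination 2 * hk
  obtain ⟨k, hk⟩ := hk
  set x : ℝ := k * Real.pi / ((q + 1 : ℕ) : ℝ) with hx
  set θ : ℝ := Real.arccos (Real.cos x) with hθ
  have hθ0 : 0 ≤ θ := Real.arccos_nonneg _
  have hθ1 : θ ≤ Real.pi := Real.arccos_le_pi _
  have hcθ : Real.cos θ = Real.cos x :=
    Real.cos_arccos (Real.neg_one_le_cos _) (Real.cos_le_one _)
  have hh2 : h = -2 * Complex.cos ((θ : ℂ) - ((0 : ℝ) : ℂ) * Complex.I) := by
    rw [hh, hk]
    rw [show (θ : ℂ) - ((0 : ℝ) : ℂ) * Complex.I = (θ : ℂ) by push_cast; ring,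
      ← Complex.ofReal_cos, ← Complex.ofReal_cos, hcθ]
  have hal : al h = θ := by rw [hh2]; exact al_eq hθ0 hθ1
  have hk' : ∃ k' : ℤ, θ = k' * Real.pi / ((q + 1 : ℕ) : ℝ) := by
    obtain ⟨n, hn⟩ := Real.cos_eq_cos_iff.mp hcθ
    rcases hn with hn | hn
    · refine ⟨k - 2 * n * (q + 1), ?_⟩
      rw [hx] at hn
      push_cast at hn ⊢
      field_simp at hn ⊢
      linarith
    · refine ⟨2 * n * (q + 1) - k, ?_⟩
      rw [hx] at hn
      push_cast at hn ⊢
      field_simp at hn ⊢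
      linarith
  obtain ⟨k', hk'⟩ := hk'
  have hm : k' = m + 1 := by
    rw [hal, hk'] at hs
    have h5 : (k' : ℝ) * Real.pi / ((q + 1 : ℕ) : ℝ) - ((m : ℝ) + 1) * Real.pi / ((q + 1 : ℕ) : ℝ)
        = ((k' : ℝ) - (m + 1)) * (Real.pi / ((q + 1 : ℕ) : ℝ)) := by ring
    rw [h5, abs_mul, abs_of_pos (by positivity : 0 < Real.pi / ((q + 1 : ℕ) : ℝ)),
      show Real.pi / (2 * ((q + 1 : ℕ) : ℝ)) = 1 / 2 * (Real.pi / ((q + 1 : ℕ) : ℝ)) by field_simp] at hs
    have h6 : |(k' : ℝ) - (m + 1)| < 1 / 2 := lt_of_mul_lt_mul_right hs (by positivity)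
    rw [abs_lt] at h6
    have h7 : (k' : ℝ) < (m : ℝ) + 1 + 1 := by linarith [h6.2]
    have h8 : (m : ℝ) + 1 < (k' : ℝ) + 1 := by linarith [h6.1]
    have h9 : k' < (m : ℤ) + 1 + 1 := by exact_mod_cast h7
    have h10 : (m : ℤ) + 1 < k' + 1 := by exact_mod_cast h8
    omega
  rw [hh2, h_eq]
  have h11 : θ = ((m : ℝ) + 1) * Real.pi / ((q + 1 : ℕ) : ℝ) := by
    rw [hk', hm]; push_cast; ring
  rw [← h11]
  simp

theorem dom (h1 : S_par) (h2 : S_dom3) (h3 : S_dom2) : S_dom := by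
  intro p hp H hF φ hφ m₀ m hm₀ hm
  have hpi := Real.pi_pos
  have hp' : (2 : ℝ) ≤ p := by exact_mod_cast hp
  have hmp : (m : ℕ) < p := m.2
  have hm1 : (1 : ℝ) ≤ (m : ℕ) := by exact_mod_cast Nat.one_le_iff_ne_zero.mpr hm
  have hs := hF.strip φ hφ m
  have hs₀ := hF.strip φ hφ m₀
  have hq : 0 < Real.pi / p := by positivity
  have e1 : Real.pi / (2 * p) = Real.pi / p / 2 := by field_simp
  rcases eq_or_lt_of_le hφ.2 with h0 | h0
  · -- `φ = 0`
    subst h0
    have hr := hF.root 0 hφ m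
    have hr₀ := hF.root 0 hφ m₀
    simp only [Complex.ofReal_zero, zero_mul, Complex.exp_zero, one_mul] at hr hr₀
    have h4 := zero_root (by omega) hr hs
    have h5 := zero_root (by omega) hr₀ hs₀
    rw [h4, h5, hm₀]
    apply lt_max_of_lt_right
    have e2 : ∀ t : ℝ, ‖(2 * Real.cos 0 : ℂ) - ((-2 * Real.cos t : ℝ) : ℂ)‖ = 2 + 2 * Real.cos t := by
      intro t
      have : (2 * Real.cos 0 : ℂ) - ((-2 * Real.cos t : ℝ) : ℂ) = ((2 + 2 * Real.cos t : ℝ) : ℂ) := by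
        rw [Real.cos_zero]; push_cast; ring
      rw [this, Complex.norm_real, Real.norm_eq_abs, abs_of_nonneg]
      linarith [Real.neg_one_le_cos t]
    rw [e2, e2]
    have : Real.cos (((m : ℕ) + 1 : ℝ) * Real.pi / p) < Real.cos ((((0 : ℕ) : ℝ) + 1) * Real.pi / p) := by
      apply Real.cos_lt_cos_of_nonneg_of_le_pi
      · positivity
      · rw [div_le_iff₀ (by positivity)]
        have : ((m : ℕ) : ℝ) + 1 ≤ p := by exact_mod_cast hmp
        nlinarith
      · apply div_lt_div_of_pos_right _ (by positivity)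
        push_cast
        nlinarith
    linarith
  · have hφ1 := hφ.1
    obtain ⟨α, b, hα0, hα1, hb, hh, hE⟩ := h1 p (by omega) φ hφ1 h0 _ (hF.root φ hφ m)
    obtain ⟨α₁, b₁, hα₁0, hα₁1, hb₁, hh₁, hE₁⟩ := h1 p (by omega) φ hφ1 h0 _ (hF.root φ hφ m₀)
    have hc0 : 0 ≤ 2 * Real.cos φ := by
      have := Real.cos_nonneg_of_neg_pi_div_two_le_of_le hφ1 (by linarith)
      linarith
    have hc2 : 2 * Real.cos φ < 2 := by
      have h5 : Real.cos φ < 1 := by
        rw [← Real.cos_neg]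
        have := Real.cos_lt_cos_of_nonneg_of_le_pi (le_refl 0) (by linarith : -φ ≤ Real.pi) (by linarith)
        rwa [Real.cos_zero] at this
      linarith
    rw [hh, al_eq hα0.le hα1.le, e1, abs_lt] at hs
    rw [hh₁, al_eq hα₁0.le hα₁1.le, e1, abs_lt, hm₀] at hs₀
    simp only [Nat.cast_zero, zero_add, one_mul] at hs₀
    have e2 : ((m : ℕ) + 1 : ℝ) * Real.pi / p = ((m : ℕ) + 1 : ℝ) * (Real.pi / p) := by ring
    rw [e2] at hs
    have hα3 : 3 * Real.pi / (2 * p) < α := by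
      have e3 : 3 * Real.pi / (2 * p) = 3 * (Real.pi / p) / 2 := by field_simp
      rw [e3]
      nlinarith [hs.1]
    have hα₁2 : Real.pi / (2 * p) < α₁ := by rw [e1]; linarith [hs₀.1]
    have hα₁3 : α₁ < Real.pi / p := by
      by_contra hcon
      push Not at hcon
      have h5 : Real.sin (2 * p * α₁) < 0 := by
        have h6 := hE₁.1
        have h7 : 0 < Real.sin α₁ := Real.sin_pos_of_pos_of_lt_pi hα₁0 hα₁1
        have h8 : 0 < Real.sinh b₁ := Real.sinh_pos_iff.mpr hb₁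
        have h9 : 0 < Real.sinh (2 * p * b₁) := Real.sinh_pos_iff.mpr (by positivity)
        by_contra h
        push Not at h
        nlinarith [mul_pos h8 h9, mul_nonneg h h7.le]
      have h6 : 2 * Real.pi ≤ 2 * p * α₁ := by
        rw [div_le_iff₀ (by positivity)] at hcon
        linarith
      have h7 : 2 * p * α₁ ≤ 3 * Real.pi := by
        have h8 : α₁ ≤ 3 * (Real.pi / p) / 2 := by linarith [hs₀.2]
        calc 2 * p * α₁ ≤ 2 * p * (3 * (Real.pi / p) / 2) := by gcongr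
          _ = 3 * Real.pi := by field_simp
      have h8 : 0 ≤ Real.sin (2 * p * α₁ - 2 * Real.pi) :=
        Real.sin_nonneg_of_nonneg_of_le_pi (by linarith) (by linarith)
      rw [Real.sin_sub_two_pi] at h8
      linarith
    have ec : (2 * Real.cos φ : ℂ) = ((2 * Real.cos φ : ℝ) : ℂ) := by push_cast; rfl
    rcases Nat.lt_or_ge p 3 with hp3 | hp3
    · -- `p = 2`
      obtain rfl : p = 2 := by omega
      apply h3 φ hφ1 h0 (H m₀ φ) (H m φ) (hF.root φ hφ m₀) (hF.root φ hφ m)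
      · rw [hh₁, h_eq]
        have h5 : 0 < Real.cos α₁ := by
          apply Real.cos_pos_of_mem_Ioo
          constructor
          · linarith
          · push_cast at hα₁3; linarith
        have h6 := Real.one_le_cosh b₁
        have h7 : ∀ r s : ℝ, (((r : ℝ) : ℂ) + ((s : ℝ) : ℂ) * Complex.I).re = r := by
          intro r s; simp
        rw [h7]
        have h8 : 0 < Real.cos α₁ * Real.cosh b₁ := by positivity
        linarith
      · rw [hh, h_eq]
        have h5 : Real.cos α < 0 := by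
          apply Real.cos_neg_of_pi_div_two_lt_of_lt
          · push_cast at hα3; linarith
          · linarith
        have h6 := Real.one_le_cosh b
        have h7 : ∀ r s : ℝ, (((r : ℝ) : ℂ) + ((s : ℝ) : ℂ) * Complex.I).re = r := by
          intro r s; simp
        rw [h7]
        nlinarith
    · have h5 := h2 p hp3 (2 * Real.cos φ) α b α₁ b₁ hc0 hc2 hb hb₁ hE hE₁ hα₁2 hα₁3 hα3 hα1
      rw [← WW_eq, ← WW_eq, ← hh, ← hh₁] at h5
      rw [ec]
      rcases lt_max_iff.mp h5 with h6 | h6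
      · apply lt_max_of_lt_left
        exact lt_of_pow_lt_pow_left₀ 2 (by linarith) h6
      · apply lt_max_of_lt_right
        exact lt_of_pow_lt_pow_left₀ 2 (norm_nonneg _) h6

end Pool.Agent.Q129.VC.Dom
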