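import Mathlib
import Pool.Agent.Q167.VC.Stm

/-! Project VC, job DOM3 (helper129): domination for `p ≥ 3`. -/

namespace Pool.Agent.Q129.VC.Dom3

open Real Pool.Agent.Q167.VC

theorem nat_mul_sinh_le {b : ℝ} (hb : 0 ≤ b) (n : ℕ) : (n : ℝ) * sinh b ≤ sinh (n * b) := by
  induction n with
  | zero => simp
  | succ n ih =>
    have h1 : ((n + 1 : ℕ) : ℝ) * b = n * b + b := by push_cast; ring
    rw [h1, sinh_add]
    have h2 : 0 ≤ sinh (n * b) := by
      apply sinh_nonneg_iff.mpr; positivity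
    have h3 : 0 ≤ sinh b := sinh_nonneg_iff.mpr hb
    have h4 := one_le_cosh b
    have h5 := one_le_cosh (n * b)
    push_cast
    nlinarith [mul_nonneg h2 (sub_nonneg.mpr h4), mul_nonneg h3 (sub_nonneg.mpr h5)]

theorem nat_mul_sinh_lt {b : ℝ} (hb : 0 < b) {n : ℕ} (hn : 2 ≤ n) :
    (n : ℝ) * sinh b < sinh (n * b) := by
  obtain ⟨m, rfl⟩ : ∃ m, n = m + 1 := ⟨n - 1, by omega⟩
  have hm : 1 ≤ m := by omega
  have h1 : ((m + 1 : ℕ) : ℝ) * b = m * b + b := by push_cast; ring
  rw [h1, sinh_add]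
  have hm' : (1 : ℝ) ≤ m := by exact_mod_cast hm
  have h0 := nat_mul_sinh_le hb.le m
  have h2 : 0 < sinh (m * b) := by
    apply sinh_pos_iff.mpr; positivity
  have h3 : 0 < sinh b := sinh_pos_iff.mpr hb
  have h4 : 1 < cosh b := one_lt_cosh.mpr hb.ne'
  have h5 := one_le_cosh (m * b)
  push_cast
  nlinarith [mul_pos h2 (sub_pos.mpr h4), mul_nonneg h3.le (sub_nonneg.mpr h5)]

theorem abs_sin_nat_mul_le (x : ℝ) (n : ℕ) : |sin (n * x)| ≤ n * |sin x| := by
  induction n with
  | zero => simp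
  | succ n ih =>
    have h1 : ((n + 1 : ℕ) : ℝ) * x = n * x + x := by push_cast; ring
    rw [h1, sin_add]
    calc |sin (n * x) * cos x + cos (n * x) * sin x|
        ≤ |sin (n * x) * cos x| + |cos (n * x) * sin x| := abs_add_le _ _
      _ = |sin (n * x)| * |cos x| + |cos (n * x)| * |sin x| := by rw [abs_mul, abs_mul]
      _ ≤ |sin (n * x)| * 1 + 1 * |sin x| := by
          gcongr
          · exact abs_cos_le_one x
          · exact abs_cos_le_one _
      _ ≤ n * |sin x| + |sin x| := by linarith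
      _ = ((n + 1 : ℕ) : ℝ) * |sin x| := by push_cast; ring

/-- the basic bound for `b` -/
theorem basic {p : ℕ} {c α b : ℝ} (hE : EE p c α b) (hb : 0 < b) (h0 : 0 < sin α) :
    2 * (p : ℝ) * sinh b ^ 2 ≤ sin α := by
  have h1 := nat_mul_sinh_le hb.le (2 * p)
  push_cast at h1
  have h2 : 0 < sinh b := sinh_pos_iff.mpr hb
  have h3 := hE.1
  have h4 : -1 ≤ sin (2 * p * α) := neg_one_le_sin _
  nlinarith [mul_le_mul_of_nonneg_right h1 h2.le, mul_nonneg (by linarith : 0 ≤ 1 + sin (2 * p * α)) h0.le]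

theorem sin_neg_of {p : ℕ} {c α b : ℝ} (hp : 0 < p) (hE : EE p c α b) (hb : 0 < b) (h0 : 0 < sin α) :
    sin (2 * p * α) < 0 := by
  have h3 := hE.1
  have h2 : 0 < sinh b := sinh_pos_iff.mpr hb
  have hp' : (0 : ℝ) < p := by exact_mod_cast hp
  have h4 : 0 < sinh (2 * p * b) := sinh_pos_iff.mpr (by positivity)
  by_contra h
  push Not at h
  nlinarith [mul_pos h2 h4, mul_nonneg h h0.le]

/-- case A: `cos² α + sinh² b ≤ x₁²` is enough. -/
theorem caseA {c α b x₁ : ℝ} (hc : 0 ≤ c) (hx : 0 ≤ x₁) (h : cos α ^ 2 + sinh b ^ 2 ≤ x₁ ^ 2) :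
    WW c α b ≤ (c + 2 * x₁) ^ 2 := by
  have h1 : cos α * cosh b ≤ x₁ := by
    apply le_of_sq_le_sq _ hx |> fun h => h
    have h2 : cosh b ^ 2 = 1 + sinh b ^ 2 := by have := cosh_sq b; linarith
    rw [mul_pow, h2]
    nlinarith [sq_nonneg (sinh b), cos_sq_le_one α, mul_nonneg (sq_nonneg (sinh b)) (sub_nonneg.mpr (cos_sq_le_one α))]
  unfold WW
  nlinarith [mul_le_mul_of_nonneg_left h1 hc]

theorem W1_gt {c α₁ b₁ : ℝ} (hc : 0 ≤ c) (hb : 0 < b₁) (hx : 0 ≤ cos α₁) :
    (c + 2 * cos α₁) ^ 2 < WW c α₁ b₁ := by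
  unfold WW
  have h1 := one_le_cosh b₁
  have h2 : 0 < sinh b₁ := sinh_pos_iff.mpr hb
  have h3 : 0 ≤ c * (cos α₁ * (cosh b₁ - 1)) := by
    apply mul_nonneg hc (mul_nonneg hx (by linarith))
  nlinarith [pow_pos h2 2]

theorem cos_pi_div {p : ℕ} (hp : 3 ≤ p) : 1 / 2 ≤ cos (π / p) := by
  have hp' : (3 : ℝ) ≤ p := by exact_mod_cast hp
  have h1 : cos (π / 3) ≤ cos (π / p) := by
    apply cos_le_cos_of_nonneg_of_le_pi (by positivity) (by linarith [pi_pos])
    apply div_le_div_of_nonneg_left pi_pos.le (by norm_num) hp'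
  rw [cos_pi_div_three] at h1
  exact h1

/-- `2 t / π ≤ sin t` with a lower bound of `t`. -/
theorem sin_ge {t s : ℝ} (h0 : s * (π / 2) ≤ t) (hs : 0 ≤ s) (h1 : t ≤ π / 2) : s ≤ sin t := by
  have h2 : 0 ≤ t := le_trans (by positivity) h0
  have h3 := mul_le_sin h2 h1
  have h4 : s ≤ 2 / π * t := by
    have : 2 / π * (s * (π / 2)) = s := by field_simp
    rw [← this]
    gcongr
  linarith

/-- the inequality used twice in case A -/
theorem key_sin {p : ℕ} (hp : 3 ≤ p) {x s : ℝ} (hx0 : 0 < x) (hx1 : x ≤ π / 2) (hxs : x ≤ s)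
    (hs : s ≤ π / 2 + π / p) : sin x ≤ 2 * sin s := by
  have hp' : (3 : ℝ) ≤ p := by exact_mod_cast hp
  have h0 : 0 < sin x := sin_pos_of_pos_of_lt_pi hx0 (by linarith [pi_pos])
  rcases le_or_gt s (π / 2) with h | h
  · have := sin_le_sin_of_le_of_le_pi_div_two (by linarith) h hxs
    linarith
  · have h2 : sin s = cos (s - π / 2) := by rw [cos_sub_pi_div_two]
    have h3 : cos (π / p) ≤ cos (s - π / 2) := by
      apply cos_le_cos_of_nonneg_of_le_pi (by linarith) _ (by linarith)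
      have : π / p ≤ π / 3 := div_le_div_of_nonneg_left pi_pos.le (by norm_num) hp'
      linarith [pi_pos]
    have h4 := cos_pi_div hp
    have h5 := sin_le_one x
    linarith

/-- case A in the form used: `sin (α - α₁) sin (α + α₁) ≥ sinh² b`. -/
theorem caseA' {c α b α₁ : ℝ} (hc : 0 ≤ c) (hx : 0 ≤ cos α₁)
    (h : sinh b ^ 2 ≤ sin (α - α₁) * sin (α + α₁)) : WW c α b ≤ (c + 2 * cos α₁) ^ 2 := by
  apply caseA hc hx
  have h1 : sin (α - α₁) * sin (α + α₁) = cos α₁ ^ 2 - cos α ^ 2 := by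
    rw [sin_sub, sin_add]
    nlinarith [sin_sq_add_cos_sq α, sin_sq_add_cos_sq α₁]
  linarith

/-- case B -/
theorem caseB {p : ℕ} (hp : 3 ≤ p) {c η b x₁ : ℝ} (hc : 0 ≤ c) (hη0 : π / p < η) (hη1 : η ≤ π / 2)
    (hb : 2 * (p : ℝ) * sinh b ^ 2 ≤ sin η) (hx : 1 / 2 ≤ x₁) (hx' : cos η ≤ x₁) :
    WW c (π - η) b < max ((2 - c) ^ 2) ((c + 2 * x₁) ^ 2) := by
  have hp' : (3 : ℝ) ≤ p := by exact_mod_cast hp
  have hpi := pi_pos
  have hη : 0 < η := lt_trans (by positivity) hη0
  have hs : 2 / p ≤ sin η := by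
    apply sin_ge _ (by positivity) hη1
    have : 2 / (p : ℝ) * (π / 2) = π / p := by ring
    rw [this]; exact hη0.le
  have hs0 : 0 < sin η := sin_pos_of_pos_of_lt_pi hη (by linarith)
  have hc0 : 0 ≤ cos η := cos_nonneg_of_neg_pi_div_two_le_of_le (by linarith) hη1
  have hc1 : cos η < 1 := by
    have := cos_lt_cos_of_nonneg_of_le_pi (le_refl 0) (by linarith) hη
    rwa [cos_zero] at this
  have hcb := one_le_cosh b
  have hs1 : sin η ≤ 1 := sin_le_one η
  have hsb : sinh b ^ 2 ≤ sin η ^ 2 / 4 := by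
    have h1 : 2 ≤ p * sin η := by
      rw [div_le_iff₀ (by positivity)] at hs; linarith
    nlinarith [mul_nonneg (sub_nonneg.mpr h1) hs0.le, sq_nonneg (sinh b)]
  have hW : WW c (π - η) b = c ^ 2 - 4 * c * (cos η * cosh b) + 4 * cos η ^ 2 + 4 * sinh b ^ 2 := by
    unfold WW
    rw [cos_pi_sub]; ring
  have hW2 : WW c (π - η) b ≤ c ^ 2 - 4 * c * cos η + 4 * cos η ^ 2 + 4 * sinh b ^ 2 := by
    rw [hW]
    nlinarith [mul_nonneg (mul_nonneg hc hc0) (sub_nonneg.mpr hcb)]
  have hsq := sin_sq_add_cos_sq η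
  rcases le_or_gt c (1 / 2) with h | h
  · apply lt_max_of_lt_left
    have : 0 < (1 - cos η) * (3 / 4 * (1 + cos η) - c) := by
      apply mul_pos (by linarith) (by nlinarith)
    nlinarith
  · apply lt_max_of_lt_right
    have h1 : sinh b ^ 2 ≤ 1 / 6 := by
      nlinarith [sq_nonneg (sinh b), mul_nonneg (sub_nonneg.mpr hp') (sq_nonneg (sinh b))]
    have h2 : 1 ≤ 4 * (c * (x₁ + cos η)) := by nlinarith [mul_nonneg hc hc0]
    have h3 : 0 ≤ (x₁ - cos η) * (x₁ + cos η) := mul_nonneg (by linarith) (by linarith)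
    nlinarith

theorem one_add_sq_le_cosh (x : ℝ) : 1 + x ^ 2 / 2 ≤ cosh x := by
  have h1 : cosh x = 1 + 2 * sinh (x / 2) ^ 2 := by
    have h2 := cosh_two_mul (x / 2)
    have h3 := cosh_sq (x / 2)
    rw [show 2 * (x / 2) = x by ring] at h2
    linarith
  have h2 : (x / 2) ^ 2 ≤ sinh (x / 2) ^ 2 := by
    rw [sq_le_sq]
    rcases le_total 0 (x / 2) with h | h
    · have h3 := self_le_sinh_iff.mpr h
      rw [abs_of_nonneg h, abs_of_nonneg (le_trans h h3)]
      exact h3
    · have h3 := sinh_le_self_iff.mpr h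
      rw [abs_of_nonpos h, abs_of_nonpos (le_trans h3 h)]
      linarith
  linarith

theorem sinh_le_mul_cosh {b : ℝ} (hb : 0 < b) : sinh b ≤ b * cosh b := by
  obtain ⟨c, hc, h⟩ := exists_deriv_eq_slope sinh hb continuous_sinh.continuousOn
    differentiable_sinh.differentiableOn
  rw [Real.deriv_sinh, sinh_zero, sub_zero, sub_zero, eq_div_iff hb.ne'] at h
  have h1 : cosh c ≤ cosh b := by
    rw [cosh_le_cosh, abs_of_pos hc.1, abs_of_pos hb]; exact hc.2.le
  nlinarith

/-- the bound of `b` in case C -/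
theorem b_lt {p : ℕ} (hp : 3 ≤ p) {c η b : ℝ} (hc : 0 ≤ c) (hc2 : c < 11 / 20)
    (hη0 : 0 < η) (hη1 : 2 * p * η < π) (hb : 0 < b) (hsb : sinh b < 1 / 2) (hce : 433 / 500 < cos η)
    (h2 : c * (cosh (2 * p * b) * cosh b + cos (2 * p * η) * cos η)
      = 2 * (cos (2 * p * η) * cosh b + cos η * cosh (2 * p * b))) : b < 3 / 5 * η := by
  have hp' : (3 : ℝ) ≤ p := by exact_mod_cast hp
  by_contra hcon
  push Not at hcon
  have hcb : cosh b < 1119 / 1000 := by
    have h3 : cosh b ^ 2 = 1 + sinh b ^ 2 := by have := cosh_sq b; linarith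
    have h4 : 0 < sinh b := sinh_pos_iff.mpr hb
    by_contra h
    push Not at h
    nlinarith
  have hcb1 : 1 ≤ cosh b := one_le_cosh b
  have hY1 : 1 ≤ cosh (2 * p * b) := one_le_cosh _
  have hX1 : cos (2 * p * η) ≤ 1 := cos_le_one _
  have hX2 : -1 ≤ cos (2 * p * η) := neg_one_le_cos _
  have hce1 : cos η ≤ 1 := cos_le_one _
  -- the relation of EE.2
  have h3 : (cosh (2 * p * b) + cos (2 * p * η)) * ((cosh b + cos η) * (2 - c))
      = (cosh (2 * p * b) - cos (2 * p * η)) * ((cosh b - cos η) * (2 + c)) := by linarith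
  have h4 : 4 * ((cosh b - cos η) * (2 + c)) ≤ (cosh b + cos η) * (2 - c) := by nlinarith
  have h5 : 0 < (cosh b + cos η) * (2 - c) := by
    apply mul_pos <;> linarith
  have h6 : 3 * cosh (2 * p * b) ≤ -5 * cos (2 * p * η) := by
    have h7 : 0 ≤ cosh (2 * p * b) - cos (2 * p * η) := by linarith
    have h8 : 4 * ((cosh (2 * p * b) + cos (2 * p * η)) * ((cosh b + cos η) * (2 - c)))
        ≤ (cosh (2 * p * b) - cos (2 * p * η)) * ((cosh b + cos η) * (2 - c)) := by
      rw [h3]
      have := mul_le_mul_of_nonneg_left h4 h7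
      linarith
    have h9 : 0 ≤ ((cosh (2 * p * b) - cos (2 * p * η)) - 4 * (cosh (2 * p * b) + cos (2 * p * η)))
        * ((cosh b + cos η) * (2 - c)) := by linarith
    have h10 := nonneg_of_mul_nonneg_left h9 h5
    linarith
  have hX : 2 * π / 3 < 2 * p * η := by
    by_contra h
    push Not at h
    have h7 : cos (2 * π / 3) ≤ cos (2 * p * η) := by
      apply cos_le_cos_of_nonneg_of_le_pi (by positivity) (by linarith [pi_pos]) h
    have h8 : cos (2 * π / 3) = -(1 / 2) := by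
      have : 2 * π / 3 = π - π / 3 := by ring
      rw [this, cos_pi_sub, cos_pi_div_three]
    rw [h8] at h7
    linarith
  have hY : 5 / 4 < 2 * p * b := by
    have h7 : 3 / 5 * (2 * p * η) ≤ 2 * p * b := by
      have : 3 / 5 * (2 * p * η) = 2 * p * (3 / 5 * η) := by ring
      rw [this]
      gcongr
    have := pi_gt_d2
    nlinarith
  have hY2 : 1 + (2 * p * b) ^ 2 / 2 ≤ cosh (2 * p * b) := one_add_sq_le_cosh _
  nlinarith

/-- case C -/
theorem caseC {p : ℕ} (hp : 3 ≤ p) {c η b x₁ : ℝ} (hc : 0 ≤ c)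
    (hη0 : 0 < η) (hη1 : 2 * p * η < π) (hb : 0 < b)
    (h1 : sin (2 * p * η) * sin η = sinh (2 * p * b) * sinh b)
    (h2 : c * (cosh (2 * p * b) * cosh b + cos (2 * p * η) * cos η)
      = 2 * (cos (2 * p * η) * cosh b + cos η * cosh (2 * p * b)))
    (hx : 1 / 2 ≤ x₁) :
    WW c (π - η) b < max ((2 - c) ^ 2) ((c + 2 * x₁) ^ 2) := by
  have hp' : (3 : ℝ) ≤ p := by exact_mod_cast hp
  have hpi := pi_pos
  have hη6 : η < π / 6 := by nlinarith
  have hs0 : 0 < sin η := sin_pos_of_pos_of_lt_pi hη0 (by linarith)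
  have hs1 : sin η < 1 / 2 := by
    have := sin_lt_sin_of_lt_of_le_pi_div_two (by linarith) (by linarith) hη6
    rwa [sin_pi_div_six] at this
  have hce : 433 / 500 < cos η := by
    have h3 := cos_lt_cos_of_nonneg_of_le_pi hη0.le (by linarith) hη6
    rw [cos_pi_div_six] at h3
    have h4 : (433 : ℝ) / 250 < √3 := by
      apply lt_sqrt_of_sq_lt; norm_num
    linarith
  have hc1 : cos η < 1 := by
    have := cos_lt_cos_of_nonneg_of_le_pi (le_refl 0) (by linarith) hη0
    rwa [cos_zero] at this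
  have hsh : 0 < sinh b := sinh_pos_iff.mpr hb
  -- `sinh b < sin η`
  have hsb : sinh b < sin η := by
    by_contra hcon
    push Not at hcon
    have h3 := nat_mul_sinh_lt hb (n := 2 * p) (by omega)
    have h4 := abs_sin_nat_mul_le η (2 * p)
    push_cast at h3 h4
    rw [abs_of_pos hs0] at h4
    have h5 := le_abs_self (sin (2 * p * η))
    have h6 : sin (2 * p * η) < sinh (2 * p * b) := by nlinarith
    have h7 : 0 < sinh (2 * p * b) := sinh_pos_iff.mpr (by positivity)
    have h8 : sin (2 * p * η) * sin η < sinh (2 * p * b) * sinh b := by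
      calc sin (2 * p * η) * sin η < sinh (2 * p * b) * sin η := mul_lt_mul_of_pos_right h6 hs0
        _ ≤ sinh (2 * p * b) * sinh b := mul_le_mul_of_nonneg_left hcon h7.le
    linarith
  have hsq := sin_sq_add_cos_sq η
  have hcb1 : 1 ≤ cosh b := one_le_cosh b
  have hW : WW c (π - η) b = c ^ 2 - 4 * c * (cos η * cosh b) + 4 * cos η ^ 2 + 4 * sinh b ^ 2 := by
    unfold WW
    rw [cos_pi_sub]; ring
  have hW2 : WW c (π - η) b ≤ c ^ 2 - 4 * c * cos η + 4 * cos η ^ 2 + 4 * sinh b ^ 2 := by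
    rw [hW]
    nlinarith [mul_nonneg (mul_nonneg hc (by linarith : 0 ≤ cos η)) (sub_nonneg.mpr hcb1)]
  have hsb2 : sinh b ^ 2 < sin η ^ 2 := by nlinarith
  rcases le_or_gt (1 - x₁ ^ 2) (c * (x₁ + cos η)) with h | h
  · apply lt_max_of_lt_right
    nlinarith
  · apply lt_max_of_lt_left
    have hcc : c < 11 / 20 := by
      by_contra hcon
      push Not at hcon
      nlinarith
    have hb1 := b_lt hp hc hcc hη0 hη1 hb (by linarith) hce h2
    -- `sinh b ≤ b cosh b`
    have h3 : sinh b ≤ b * cosh b := sinh_le_mul_cosh hb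
    have hcb : cosh b < 1119 / 1000 := by
      have h4 : cosh b ^ 2 = 1 + sinh b ^ 2 := by have := cosh_sq b; linarith
      by_contra hcon
      push Not at hcon
      nlinarith
    have h5 : sinh b < 68 / 100 * η := by nlinarith
    have h6 : η - η ^ 3 / 6 < sin η := sin_gt_sub_cube hη0
    have h7 : 93 / 100 * η < sin η := by
      have h8 : η < 529 / 1000 := by linarith [pi_lt_d2]
      have h9 : η ^ 2 ≤ 42 / 100 := by
        calc η ^ 2 ≤ (529 / 1000) ^ 2 := pow_le_pow_left₀ hη0.le h8.le 2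
          _ ≤ _ := by norm_num
      have h10 : η ^ 3 ≤ 42 / 100 * η := by
        calc η ^ 3 = η ^ 2 * η := by ring
          _ ≤ 42 / 100 * η := mul_le_mul_of_nonneg_right h9 hη0.le
      linarith
    have h8 : sinh b < 74 / 100 * sin η := by linarith
    have h9 : sinh b ^ 2 ≤ 3 / 5 * sin η ^ 2 := by
      calc sinh b ^ 2 ≤ (74 / 100 * sin η) ^ 2 := pow_le_pow_left₀ hsh.le h8.le 2
        _ = (74 / 100) ^ 2 * sin η ^ 2 := by ring
        _ ≤ 3 / 5 * sin η ^ 2 := by
          apply mul_le_mul_of_nonneg_right (by norm_num) (sq_nonneg _)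
    have h10 : 0 < (1 - cos η) * (2 / 5 * (1 + cos η) - c) := by
      apply mul_pos (by linarith) (by linarith)
    have h11 : sin η ^ 2 = 1 - cos η ^ 2 := by linarith
    rw [h11] at h9
    nlinarith only [hW2, h9, h10]

theorem dom3 : S_dom3 := by
  intro p hp c α b α₁ b₁ hc hc2 hb hb₁ hE hE₁ hα₁0 hα₁1 hα0 hα1
  have hp' : (3 : ℝ) ≤ p := by exact_mod_cast hp
  have hpi := pi_pos
  have hq : 0 < π / p := by positivity
  have e1 : π / (2 * p) = π / p / 2 := by field_simp
  have e2 : 3 * π / (2 * p) = 3 * (π / p) / 2 := by field_simp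
  have hq3 : π / p ≤ π / 3 := div_le_div_of_nonneg_left pi_pos.le (by norm_num) hp'
  rw [e1] at hα₁0
  rw [e2] at hα0
  have hx₁ : 1 / 2 ≤ cos α₁ := by
    refine le_trans (cos_pi_div hp) ?_
    apply cos_le_cos_of_nonneg_of_le_pi (by linarith) (by linarith) hα₁1.le
  have hW1 := W1_gt hc hb₁ (by linarith : 0 ≤ cos α₁)
  have hsα : 0 < sin α := sin_pos_of_pos_of_lt_pi (by linarith) hα1
  have hbas := basic hE hb hsα
  have hneg := sin_neg_of (by omega) hE hb hsα
  have hfin : ∀ h : WW c α b < max ((2 - c) ^ 2) ((c + 2 * cos α₁) ^ 2),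
      WW c α b < max ((2 - c) ^ 2) (WW c α₁ b₁) :=
    fun h => lt_of_lt_of_le h (max_le_max le_rfl hW1.le)
  have hsin1 : sin α ≤ 1 := sin_le_one α
  rcases le_or_gt α (π / 2) with h | h
  · -- case A, `α ≤ π/2`
    apply lt_max_of_lt_right
    refine lt_of_le_of_lt ?_ hW1
    apply caseA' hc (by linarith)
    have h1 : 1 / (p : ℝ) ≤ sin (α - α₁) := by
      apply sin_ge _ (by positivity) (by linarith)
      have : 1 / (p : ℝ) * (π / 2) = π / p / 2 := by ring
      rw [this]; linarith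
    have h2 : sin α ≤ 2 * sin (α + α₁) := key_sin hp (by linarith) h (by linarith) (by linarith)
    have h3 : 0 < 2 * (p : ℝ) := by positivity
    have h4 : sinh b ^ 2 ≤ 1 / (p : ℝ) * (sin α / 2) := by
      have : 1 / (p : ℝ) * (sin α / 2) = sin α / (2 * p) := by field_simp
      rw [this, le_div_iff₀ h3]; linarith
    have h5 : 1 / (p : ℝ) * (sin α / 2) ≤ sin (α - α₁) * sin (α + α₁) := by
      apply mul_le_mul h1 (by linarith) (by linarith)
      exact le_trans (by positivity) h1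
    linarith
  · -- `η = π - α`
    obtain ⟨η, rfl⟩ : ∃ η, α = π - η := ⟨π - α, by ring⟩
    have hη0 : 0 < η := by linarith
    have hη2 : η < π / 2 := by linarith
    rw [sin_pi_sub] at hsα hbas hsin1
    have e3 : 2 * (p : ℝ) * (π - η) = p * (2 * π) - 2 * p * η := by ring
    rw [e3, sin_nat_mul_two_pi_sub] at hneg
    have hpos : 0 < sin (2 * p * η) := by linarith
    rcases le_or_gt (2 * (π / p)) η with h4 | h4
    · -- case A, second part
      apply lt_max_of_lt_right
      refine lt_of_le_of_lt ?_ hW1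
      apply caseA' hc (by linarith)
      have e4 : sin (π - η - α₁) = sin (η + α₁) := by rw [sub_sub, sin_pi_sub]
      have e5 : sin (π - η + α₁) = sin (η - α₁) := by
        rw [show π - η + α₁ = π - (η - α₁) by ring, sin_pi_sub]
      rw [e4, e5]
      have h1 : 2 / (p : ℝ) ≤ sin (η - α₁) := by
        apply sin_ge _ (by positivity) (by linarith)
        have : 2 / (p : ℝ) * (π / 2) = π / p := by ring
        rw [this]; linarith
      have h2 : sin η ≤ 2 * sin (η + α₁) := key_sin hp hη0 hη2.le (by linarith) (by linarith)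
      have h3 : 0 < 2 * (p : ℝ) := by positivity
      have h5 : sinh b ^ 2 ≤ sin η / 2 * (1 / (p : ℝ)) := by
        have : sin η / 2 * (1 / (p : ℝ)) = sin η / (2 * p) := by field_simp
        rw [this, le_div_iff₀ h3]; linarith
      have h6 : sin η / 2 * (1 / (p : ℝ)) ≤ sin (η + α₁) * sin (η - α₁) := by
        apply mul_le_mul (by linarith) _ (by positivity) (by linarith)
        refine le_trans ?_ h1
        gcongr; norm_num
      linarith
    · -- `X = 2 p η < 4 π`
      have hX4 : 2 * p * η < 4 * π := by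
        have : 2 * (p : ℝ) * (2 * (π / p)) = 4 * π := by field_simp; ring
        rw [← this]; gcongr
      rcases lt_or_ge (2 * p * η) π with h5 | h5
      · apply hfin
        apply caseC hp hc hη0 h5 hb _ _ hx₁
        · have := hE.1
          rw [e3, sin_nat_mul_two_pi_sub, sin_pi_sub] at this
          linarith
        · have := hE.2
          rw [e3, cos_nat_mul_two_pi_sub, cos_pi_sub] at this
          linarith
      · rcases le_or_gt (2 * p * η) (2 * π) with h6 | h6
        · exfalso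
          have h7 : 0 ≤ sin (2 * p * η - π) := sin_nonneg_of_nonneg_of_le_pi (by linarith) (by linarith)
          rw [sin_sub_pi] at h7
          linarith
        · rcases le_or_gt (3 * π) (2 * p * η) with h7 | h7
          · exfalso
            have h8 : 0 ≤ sin (2 * p * η - 3 * π) :=
              sin_nonneg_of_nonneg_of_le_pi (by linarith) (by linarith)
            rw [show 2 * p * η - 3 * π = (2 * p * η - π) - 2 * π by ring, sin_sub_two_pi,
              sin_sub_pi] at h8
            linarith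
          · apply hfin
            apply caseB hp hc _ hη2.le hbas hx₁
            · apply cos_le_cos_of_nonneg_of_le_pi (by linarith) (by linarith)
              have : π / p < η := by
                rw [div_lt_iff₀ (by positivity)]; linarith
              linarith
            · rw [div_lt_iff₀ (by positivity)]; linarith

end Pool.Agent.Q129.VC.Dom3
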