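import Mathlib
import Pool.Agent.Q167.VC.Stm

/-! Project VC, job GEN (helper129): the generic formula (Bailey pair). -/

open Finset

namespace Pool.Agent.Q129.VC.Gen

open Pool.Agent.Q167.VC

theorem qb_zero_right (q : ℂ) (n : ℕ) : qb q n 0 = 1 := by cases n <;> rfl

theorem qb_succ (q : ℂ) (n k : ℕ) : qb q (n + 1) (k + 1) = qb q n k + q ^ (k + 1) * qb q n (k + 1) := rfl

theorem qb_eq_zero (q : ℂ) : ∀ {n k : ℕ}, n < k → qb q n k = 0 := by
  intro n
  induction n with
  | zero => intro k hk; cases k with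
    | zero => omega
    | succ k => rfl
  | succ n ih =>
    intro k hk
    cases k with
    | zero => omega
    | succ k => rw [qb_succ, ih (by omega), ih (by omega)]; ring

theorem qb_self (q : ℂ) (n : ℕ) : qb q n n = 1 := by
  induction n with
  | zero => rfl
  | succ n ih => rw [qb_succ, ih, qb_eq_zero q (by omega)]; ring

/-- (1) -/
theorem qb_rel1 (q : ℂ) : ∀ (n m : ℕ), m ≤ n →
    (1 - q ^ (m + 1)) * qb q n (m + 1) = (1 - q ^ (n - m)) * qb q n m := by
  intro n
  induction n with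
  | zero => intro m hm; obtain rfl : m = 0 := by omega
            simp [qb]
  | succ n ih =>
    intro m hm
    rcases Nat.lt_or_ge n m with h | h
    · obtain rfl : m = n + 1 := by omega
      rw [qb_eq_zero q (by omega)]; simp
    · cases m with
      | zero =>
        have h1 := ih 0 (by omega)
        rw [qb_succ, qb_zero_right, qb_zero_right]
        rw [qb_zero_right] at h1
        simp only [Nat.sub_zero, zero_add, pow_one, mul_one] at h1 ⊢
        rw [pow_succ]
        linear_combination q * h1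
      | succ m =>
        have h1 := ih (m + 1) (by omega)
        have h2 := ih m (by omega)
        rw [qb_succ, qb_succ q n m]
        have e1 : n + 1 - (m + 1) = n - m := by omega
        have e2 : q ^ (n - m) = q ^ (n - (m + 1)) * q := by
          rw [← pow_succ]; congr 1; omega
        rw [e1]
        rw [e2] at h2 ⊢
        linear_combination h2 + q ^ (m + 2) * h1

/-- (1') -/
theorem qb_rel2 (q : ℂ) (n m : ℕ) (h : m ≤ n + 1) :
    (1 - q ^ (n + 1)) * qb q n m = (1 - q ^ (n + 1 - m)) * qb q (n + 1) m := by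
  cases m with
  | zero => simp [qb_zero_right]
  | succ m =>
    have h1 := qb_rel1 q n m (by omega)
    rw [qb_succ]
    have e1 : n + 1 - (m + 1) = n - m := by omega
    have e2 : q ^ (n + 1) = q ^ (n - m) * q ^ (m + 1) := by
      rw [← pow_add]; congr 1; omega
    rw [e1, e2]
    linear_combination h1

/-- the operator `M`. -/
def Mo (q : ℂ) (f : ℕ → ℂ) : ℕ → ℂ
  | 0 => (1 + q) * f 0
  | m + 1 => (1 + q ^ (2 * m + 3)) * f (m + 1) - (1 - q ^ (m + 1)) * f m

theorem comm (q : ℂ) (f : ℕ → ℂ) (n : ℕ) :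
    (1 + q ^ (2 * n + 3)) * (∑ m ∈ range (n + 2), q ^ (m * (m + 1)) * qb q (n + 1) m * f m)
      - (1 - q ^ (n + 1)) * (∑ m ∈ range (n + 1), q ^ (m * (m + 1)) * qb q n m * f m)
    = q ^ (n + 1) * ∑ m ∈ range (n + 2), q ^ (m * m) * qb q (n + 1) m * Mo q f m := by
  have hB : ∑ m ∈ range (n + 1), q ^ (m * (m + 1)) * qb q n m * f m
      = ∑ m ∈ range (n + 2), q ^ (m * (m + 1)) * qb q n m * f m := by
    rw [sum_range_succ _ (n + 1), qb_eq_zero q (by omega : n < n + 1)]; ring
  have hM : ∑ m ∈ range (n + 2), q ^ (m * m) * qb q (n + 1) m * Mo q f m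
      = (∑ m ∈ range (n + 2), q ^ (m * m) * qb q (n + 1) m * ((1 + q ^ (2 * m + 1)) * f m))
        - ∑ m ∈ range (n + 2),
          q ^ ((m + 1) * (m + 1)) * qb q (n + 1) (m + 1) * ((1 - q ^ (m + 1)) * f m) := by
    rw [sum_range_succ (fun m => q ^ ((m + 1) * (m + 1)) * qb q (n + 1) (m + 1)
      * ((1 - q ^ (m + 1)) * f m)) (n + 1), qb_eq_zero q (by omega : n + 1 < n + 1 + 1)]
    rw [sum_range_succ' _ (n + 1), sum_range_succ' (fun m => q ^ (m * m) * qb q (n + 1) m
      * ((1 + q ^ (2 * m + 1)) * f m)) (n + 1)]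
    rw [show (q ^ ((n + 1 + 1) * (n + 1 + 1)) * 0 * ((1 - q ^ (n + 1 + 1)) * f (n + 1)) : ℂ) = 0
      by ring, add_zero]
    rw [add_sub_right_comm, ← sum_sub_distrib]
    congr 1
    · apply sum_congr rfl
      intro m _
      simp only [Mo]
      ring
    · simp [Mo]
  rw [hB, hM, mul_sum, mul_sum, ← sum_sub_distrib, ← sum_sub_distrib, mul_sum]
  apply sum_congr rfl
  intro m hm
  rw [mem_range] at hm
  have h1 := qb_rel1 q (n + 1) m (by omega)
  have h2 := qb_rel2 q n m (by omega)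
  obtain ⟨d, hd⟩ : ∃ d, n + 1 = m + d := ⟨n + 1 - m, by omega⟩
  have e1 : n + 1 - m = d := by omega
  rw [e1] at h1 h2
  have e2 : q ^ (n + 1) = q ^ m * q ^ d := by rw [hd, pow_add]
  have e3 : q ^ (2 * n + 3) = q ^ m * q ^ m * q ^ d * q ^ d * q := by
    rw [← pow_add, ← pow_add, ← pow_add, ← pow_succ]; congr 1; omega
  have e4 : q ^ (m * (m + 1)) = q ^ (m * m) * q ^ m := by rw [← pow_add]; congr 1
  have e5 : q ^ ((m + 1) * (m + 1)) = q ^ (m * m) * q ^ m * q ^ m * q := by
    rw [← pow_add, ← pow_add, ← pow_succ]; congr 1; ring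
  have e6 : q ^ (2 * m + 1) = q ^ m * q ^ m * q := by
    rw [← pow_add, ← pow_succ]; congr 1; omega
  have e7 : q ^ (m + 1) = q ^ m * q := pow_succ _ _
  rw [e2] at h2 ⊢
  rw [e3, e4, e5, e6]
  rw [e7] at h1 ⊢
  linear_combination (-(q ^ (m * m) * q ^ m) * f m) * h2
    + (q ^ m * q ^ d * (q ^ (m * m) * q ^ m * q ^ m * q) * f m) * h1

/-- genericity -/
def Gn (q : ℂ) (n : ℕ) : Prop := ∀ i : ℕ, 1 ≤ i → i ≤ 2 * n + 1 → q ^ i ≠ 1

theorem Gn.mono {q : ℂ} {n m : ℕ} (h : Gn q n) (hm : m ≤ n) : Gn q m :=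
  fun i h1 h2 => h i h1 (by omega)

theorem po_succ (q : ℂ) (n : ℕ) : po q (n + 1) = po q n * (1 - q ^ (n + 1)) := by
  unfold po; rw [prod_range_succ]

theorem po_ne {q : ℂ} {n : ℕ} (h : Gn q n) {m : ℕ} (hm : m ≤ 2 * n + 1) : po q m ≠ 0 := by
  unfold po
  rw [prod_ne_zero_iff]
  intro i hi
  rw [mem_range] at hi
  exact sub_ne_zero.mpr (h (i + 1) (by omega) (by omega)).symm

/-- the coefficient `v`. -/
noncomputable def vv (q : ℂ) (n k : ℕ) : ℂ := po q n / (po q (n - k) * po q (n + k + 1))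

theorem vv_rec {q : ℂ} {n k : ℕ} (hk : k ≤ n) (h : Gn q (n + 1)) :
    (1 - q ^ (n + 1)) * vv q n k
      = (1 - q ^ (n + 1 - k)) * (1 - q ^ (n + k + 2)) * vv q (n + 1) k := by
  unfold vv
  obtain ⟨d, rfl⟩ : ∃ d, n = k + d := ⟨n - k, by omega⟩
  have e1 : k + d - k = d := by omega
  have e2 : k + d + 1 - k = d + 1 := by omega
  have e3 : k + d + 1 + k + 1 = (k + d + k + 1) + 1 := by omega
  rw [e1, e2, e3, po_succ q (k + d), po_succ q d, po_succ q (k + d + k + 1)]
  have h1 : po q d ≠ 0 := po_ne h (by omega)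
  have h2 : po q (k + d + k + 1) ≠ 0 := po_ne h (by omega)
  have h3 : 1 - q ^ (d + 1) ≠ 0 := sub_ne_zero.mpr (h (d + 1) (by omega) (by omega)).symm
  have h4 : 1 - q ^ (k + d + k + 1 + 1) ≠ 0 :=
    sub_ne_zero.mpr (h (k + d + k + 1 + 1) (by omega) (by omega)).symm
  have e4 : k + d + k + 2 = k + d + k + 1 + 1 := by omega
  rw [e4]
  field_simp

theorem vv_shift {q : ℂ} {n k : ℕ} (hk : k + 1 ≤ n) (h : Gn q n) :
    (1 - q ^ (n - k)) * vv q n k = (1 - q ^ (n + k + 2)) * vv q n (k + 1) := by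
  unfold vv
  obtain ⟨d, rfl⟩ : ∃ d, n = k + 1 + d := ⟨n - (k + 1), by omega⟩
  have e1 : k + 1 + d - k = d + 1 := by omega
  have e2 : k + 1 + d - (k + 1) = d := by omega
  have e3 : k + 1 + d + (k + 1) + 1 = (k + 1 + d + k + 1) + 1 := by omega
  have e4 : k + 1 + d + k + 2 = k + 1 + d + k + 1 + 1 := by omega
  rw [e1, e2, e3, e4, po_succ q d, po_succ q (k + 1 + d + k + 1)]
  have h1 : po q d ≠ 0 := po_ne h (by omega)
  have h2 : po q (k + 1 + d + k + 1) ≠ 0 := po_ne h (by omega)
  have h3 : 1 - q ^ (d + 1) ≠ 0 := sub_ne_zero.mpr (h (d + 1) (by omega) (by omega)).symm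
  have h4 : 1 - q ^ (k + 1 + d + k + 1 + 1) ≠ 0 :=
    sub_ne_zero.mpr (h (k + 1 + d + k + 1 + 1) (by omega) (by omega)).symm
  field_simp

/-- `v(·, k)` extended by zero -/
noncomputable def fk (q : ℂ) (k m : ℕ) : ℂ := if k ≤ m then vv q m k else 0

theorem Mo_fk {q : ℂ} {n k m : ℕ} (hm : m ≤ n) (h : Gn q n) :
    q ^ k * Mo q (fk q k) m = q ^ m * (1 + q ^ (2 * k + 1)) * fk q k m := by
  cases m with
  | zero =>
    rcases Nat.eq_zero_or_pos k with rfl | hk
    · simp [Mo]
    · have : ¬ k ≤ 0 := by omega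
      simp [Mo, fk, this]
  | succ m =>
    simp only [Mo]
    rcases Nat.lt_trichotomy k (m + 1) with hk | rfl | hk
    · have h1 : k ≤ m := by omega
      have h2 : k ≤ m + 1 := by omega
      have h3 := vv_rec h1 (h.mono hm)
      obtain ⟨d, hd⟩ : ∃ d, m + 1 = k + d := ⟨m + 1 - k, by omega⟩
      have e1 : m + 1 - k = d := by omega
      rw [e1] at h3
      simp only [fk, if_pos h1, if_pos h2]
      have e2 : q ^ (m + 1) = q ^ k * q ^ d := by rw [hd, pow_add]
      have e3 : q ^ (2 * m + 3) = q ^ k * q ^ k * q ^ d * q ^ d * q := by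
        rw [← pow_add, ← pow_add, ← pow_add, ← pow_succ]; congr 1; omega
      have e4 : q ^ (m + k + 2) = q ^ k * q ^ k * q ^ d * q := by
        rw [← pow_add, ← pow_add, ← pow_succ]; congr 1; omega
      have e5 : q ^ (2 * k + 1) = q ^ k * q ^ k * q := by
        rw [← pow_add, ← pow_succ]; congr 1; omega
      rw [e2, e4] at h3
      rw [e2, e3, e5]
      linear_combination (-(q ^ k)) * h3
    · have h1 : ¬ (m + 1 ≤ m) := by omega
      simp only [fk, if_neg h1, le_refl, if_true]
      have e3 : q ^ (2 * m + 3) = q ^ (2 * (m + 1) + 1) := by congr 1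
      rw [e3]; ring
    · have h1 : ¬ (k ≤ m) := by omega
      have h2 : ¬ (k ≤ m + 1) := by omega
      simp only [fk, if_neg h1, if_neg h2]
      ring

theorem vand {q : ℂ} (hq : q ≠ 0) (k : ℕ) : ∀ n : ℕ, k ≤ n → Gn q n →
    ∑ m ∈ range (n + 1), q ^ (m * (m + 1)) * qb q n m * fk q k m = q ^ (k * (k + 1)) * vv q n k := by
  intro n hn
  induction n, hn using Nat.le_induction with
  | base =>
    intro h
    rw [sum_range_succ, sum_eq_zero]
    · simp [fk, qb_self]
    · intro m hm
      rw [mem_range] at hm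
      have : ¬ k ≤ m := by omega
      simp [fk, this]
  | succ n hn ih =>
    intro h
    have h1 := ih (h.mono (by omega))
    have h2 := comm q (fk q k) n
    have h3 : q ^ k * ∑ m ∈ range (n + 2), q ^ (m * m) * qb q (n + 1) m * Mo q (fk q k) m
        = (1 + q ^ (2 * k + 1)) * ∑ m ∈ range (n + 2), q ^ (m * (m + 1)) * qb q (n + 1) m * fk q k m := by
      rw [mul_sum, mul_sum]
      apply sum_congr rfl
      intro m hm
      rw [mem_range] at hm
      have h4 := Mo_fk (n := n + 1) (k := k) (m := m) (by omega) h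
      have e4 : q ^ (m * (m + 1)) = q ^ (m * m) * q ^ m := by rw [← pow_add]; congr 1
      rw [e4]
      linear_combination (q ^ (m * m) * qb q (n + 1) m) * h4
    set A := ∑ m ∈ range (n + 2), q ^ (m * (m + 1)) * qb q (n + 1) m * fk q k m with hA
    have h5 := vv_rec hn h
    obtain ⟨d, hd⟩ : ∃ d, n + 1 = k + d := ⟨n + 1 - k, by omega⟩
    have e1 : n + 1 - k = d := by omega
    rw [e1] at h5
    have e2 : q ^ (n + 1) = q ^ k * q ^ d := by rw [hd, pow_add]
    have e3 : q ^ (2 * n + 3) = q ^ k * q ^ k * q ^ d * q ^ d * q := by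
      rw [← pow_add, ← pow_add, ← pow_add, ← pow_succ]; congr 1; omega
    have e4 : q ^ (n + k + 2) = q ^ k * q ^ k * q ^ d * q := by
      rw [← pow_add, ← pow_add, ← pow_succ]; congr 1; omega
    have e5 : q ^ (2 * k + 1) = q ^ k * q ^ k * q := by
      rw [← pow_add, ← pow_succ]; congr 1; omega
    have hqk : q ^ k ≠ 0 := pow_ne_zero _ hq
    have hd1 : (1 - q ^ d) ≠ 0 := sub_ne_zero.mpr (h d (by omega) (by omega)).symm
    have hd2 : (1 - q ^ (n + k + 2)) ≠ 0 :=
      sub_ne_zero.mpr (h (n + k + 2) (by omega) (by omega)).symm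
    have h6 : (1 - q ^ d) * (1 - q ^ (n + k + 2)) * A = (1 - q ^ d) * (1 - q ^ (n + k + 2)) *
        (q ^ (k * (k + 1)) * vv q (n + 1) k) := by
      rw [h1] at h2
      rw [e2, e3] at h2
      rw [e2, e4] at h5
      rw [e5] at h3
      rw [e4]
      have h7 : q ^ k * ((1 + q ^ k * q ^ k * q ^ d * q ^ d * q) * A
          - (1 - q ^ k * q ^ d) * (q ^ (k * (k + 1)) * vv q n k))
          = q ^ k * (q ^ d * ((1 + q ^ k * q ^ k * q) * A)) := by
        linear_combination (q ^ k) * h2 + (q ^ k * q ^ d) * h3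
      have h8 := mul_left_cancel₀ hqk h7
      linear_combination h8 + q ^ (k * (k + 1)) * h5
    exact mul_left_cancel₀ (mul_ne_zero hd1 hd2) h6

/-- the numerator `S^j - S^{-j}`, `S = x^{2k+1}`. -/
noncomputable def sj (x : ℂ) (j k : ℕ) : ℂ := x ^ (j * (2 * k + 1)) - (x⁻¹) ^ (j * (2 * k + 1))

theorem sj_rec {x : ℂ} (hx : x ≠ 0) (j k : ℕ) :
    sj x (j + 2) k = (x ^ (2 * k + 1) + (x⁻¹) ^ (2 * k + 1)) * sj x (j + 1) k - sj x j k := by
  unfold sj
  have e1 : x ^ (2 * k + 1) * (x⁻¹) ^ (2 * k + 1) = 1 := by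
    rw [← mul_pow, mul_inv_cancel₀ hx, one_pow]
  have e2 : ∀ y : ℂ, y ^ ((j + 2) * (2 * k + 1)) = y ^ (2 * k + 1) * (y ^ (2 * k + 1) * y ^ (j * (2 * k + 1))) := by
    intro y
    rw [← pow_add, ← pow_add]; congr 1; ring
  have e3 : ∀ y : ℂ, y ^ ((j + 1) * (2 * k + 1)) = y ^ (2 * k + 1) * y ^ (j * (2 * k + 1)) := by
    intro y
    rw [← pow_add]; congr 1; ring
  rw [e2, e2, e3, e3]
  linear_combination (x⁻¹ ^ (j * (2 * k + 1)) - x ^ (j * (2 * k + 1))) * e1

theorem unit_alg (x A b y U V W s : ℂ) (h3 : (1 - b * b * x * x) * U = (1 - A * A * (x * x) * (b * b)) * V)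
    (h : x * A * y = 1) :
    -(s * W * U * (1 - b * b * x * x) * (1 - A)) + x * (1 - A * (b * b)) * (s * (-1) * (W * A)
      * (A * x - y) * V) = -(s * (-1) * (W * A) * V * (1 - b * b) * (1 - A * x * x)) := by
  linear_combination (-(s * W * (1 - A))) * h3 + (s * W * V * (1 - A * (b * b))) * h

/-- (4) the unit -/
theorem unit_sum {x : ℂ} (hx : x ≠ 0) (n : ℕ) (h : Gn (x ^ 2) n) :
    ∑ k ∈ range (n + 1), (-1) ^ k * x ^ (k * (k + 1)) * sj x 1 k * vv (x ^ 2) n k
      = -cf (x ^ 2) 0 n / x := by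
  rcases Nat.eq_zero_or_pos n with rfl | hn
  · have h1 : 1 - x ^ 2 ≠ 0 := by
      have := h 1 le_rfl (by omega)
      rw [pow_one] at this
      exact sub_ne_zero.mpr this.symm
    simp only [sj, vv, cf, po, zero_add, range_one, sum_singleton, pow_zero, Nat.zero_mul, one_mul,
      Nat.mul_zero, Nat.zero_sub, range_zero, prod_empty, prod_singleton, pow_one, if_true]
    field_simp
    ring
  · have hqn : 1 - (x ^ 2) ^ n ≠ 0 := sub_ne_zero.mpr (h n (by omega) (by omega)).symm
    have hcf : cf (x ^ 2) 0 n = 0 := by simp [cf, hn.ne']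
    rw [hcf]
    have key : ∀ N : ℕ, N ≤ n → x * (1 - (x ^ 2) ^ n) *
        ∑ k ∈ range (N + 1), (-1) ^ k * x ^ (k * (k + 1)) * sj x 1 k * vv (x ^ 2) n k
        = -((-1) ^ N * x ^ (N * (N + 1)) * vv (x ^ 2) n N * (1 - (x ^ 2) ^ (n - N))
          * (1 - (x ^ 2) ^ (N + 1))) := by
      intro N
      induction N with
      | zero =>
        intro _
        have e1 : x * x⁻¹ = 1 := mul_inv_cancel₀ hx
        simp only [sj, zero_add, range_one, sum_singleton, pow_zero, Nat.zero_mul, one_mul,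
          Nat.mul_zero, Nat.sub_zero, pow_one]
        linear_combination (-(1 - (x ^ 2) ^ n) * vv (x ^ 2) n 0) * e1
      | succ N ih =>
        intro hN
        rw [sum_range_succ, mul_add, ih (by omega)]
        have h3 := vv_shift (q := x ^ 2) (k := N) (by omega) h
        obtain ⟨d, hd⟩ : ∃ d, n = N + 1 + d := ⟨n - (N + 1), by omega⟩
        have e0 : n - (N + 1) = d := by omega
        have e1 : n - N = d + 1 := by omega
        rw [e0, e1]
        rw [e1] at h3
        have e2 : x ^ ((N + 1) * (N + 1 + 1)) = x ^ (N * (N + 1)) * (x ^ N * x ^ N * x * x) := by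
          rw [← pow_add, ← pow_succ, ← pow_succ, ← pow_add]; congr 1; ring
        have e3 : x ^ (1 * (2 * (N + 1) + 1)) = x ^ N * x ^ N * x * x * x := by
          rw [← pow_add, ← pow_succ, ← pow_succ, ← pow_succ]; congr 1; omega
        have e4 : x ^ (1 * (2 * (N + 1) + 1)) * (x⁻¹) ^ (1 * (2 * (N + 1) + 1)) = 1 := by
          rw [← mul_pow, mul_inv_cancel₀ hx, one_pow]
        have e5 : (x ^ 2) ^ n = x ^ N * x ^ N * x * x * (x ^ d * x ^ d) := by
          rw [← pow_mul, ← pow_add, ← pow_add, ← pow_succ, ← pow_succ, ← pow_add]; congr 1; omega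
        have e6 : (x ^ 2) ^ (d + 1) = x ^ d * x ^ d * x * x := by
          rw [← pow_mul, ← pow_add, ← pow_succ, ← pow_succ]; congr 1; omega
        have e7 : (x ^ 2) ^ (N + 1) = x ^ N * x ^ N * x * x := by
          rw [← pow_mul, ← pow_add, ← pow_succ, ← pow_succ]; congr 1; omega
        have e8 : (x ^ 2) ^ (N + 1 + 1) = x ^ N * x ^ N * x * x * x * x := by
          rw [← pow_mul, ← pow_add, ← pow_succ, ← pow_succ, ← pow_succ, ← pow_succ]; congr 1; omega
        have e9 : (x ^ 2) ^ d = x ^ d * x ^ d := by rw [← pow_mul, ← pow_add]; congr 1; omega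
        have e10 : (x ^ 2) ^ (n + N + 2) = (x ^ N * x ^ N * x * x) * (x ^ N * x ^ N * x * x) *
            (x * x) * (x ^ d * x ^ d) := by
          rw [← pow_mul, ← pow_add, ← pow_add, ← pow_succ, ← pow_succ, ← pow_add, ← sq, ← pow_add,
            ← pow_add]
          congr 1; omega
        unfold sj
        rw [e3] at e4 ⊢
        rw [e6, e10] at h3
        rw [e2, e5, e6, e7, e8, e9, pow_succ (-1 : ℂ)]
        have e12 : x * (x ^ N * x ^ N * x * x) * (x⁻¹) ^ (1 * (2 * (N + 1) + 1)) = 1 := by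
          linear_combination e4
        exact unit_alg x (x ^ N * x ^ N * x * x) (x ^ d) ((x⁻¹) ^ (1 * (2 * (N + 1) + 1)))
          (vv (x ^ 2) n N) (vv (x ^ 2) n (N + 1)) (x ^ (N * (N + 1))) ((-1) ^ N) h3 e12
    have h4 := key n le_rfl
    rw [Nat.sub_self, pow_zero, sub_self, mul_zero, zero_mul, neg_zero] at h4
    have h5 := (mul_eq_zero.mp h4).resolve_left (mul_ne_zero hx hqn)
    rw [h5]; simp

/-- the factor of the sum -/
noncomputable def cc (x : ℂ) (p k : ℕ) : ℂ := (-1) ^ k * x ^ ((2 * p + 1) * (k * (k + 1)))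

theorem cf_formula {x : ℂ} (hx : x ≠ 0) : ∀ (p n : ℕ), Gn (x ^ 2) n →
    -cf (x ^ 2) p n / x = ∑ k ∈ range (n + 1), cc x p k * sj x 1 k * vv (x ^ 2) n k := by
  intro p
  induction p with
  | zero =>
    intro n h
    rw [← unit_sum hx n h]
    apply sum_congr rfl
    intro k _
    simp [cc]
  | succ p ih =>
    intro n h
    have hq : x ^ 2 ≠ 0 := pow_ne_zero _ hx
    have h1 : ∀ m ∈ range (n + 1), cf (x ^ 2) p m
        = -x * ∑ k ∈ range (n + 1), cc x p k * sj x 1 k * fk (x ^ 2) k m := by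
      intro m hm
      rw [mem_range] at hm
      have h2 := ih m (h.mono (by omega))
      have h3 : ∑ k ∈ range (n + 1), cc x p k * sj x 1 k * fk (x ^ 2) k m
          = ∑ k ∈ range (m + 1), cc x p k * sj x 1 k * vv (x ^ 2) m k := by
        symm
        have h4 : ∑ k ∈ range (m + 1), cc x p k * sj x 1 k * vv (x ^ 2) m k
            = ∑ k ∈ range (m + 1), cc x p k * sj x 1 k * fk (x ^ 2) k m := by
          apply sum_congr rfl
          intro k hk
          rw [mem_range] at hk
          rw [fk, if_pos (by omega)]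
        rw [h4]
        apply sum_subset
        · intro k hk
          rw [mem_range] at hk ⊢
          omega
        · intro k _ hk
          rw [mem_range] at hk
          rw [fk, if_neg (by omega), mul_zero]
      rw [h3, ← h2]
      field_simp
    have h5 : cf (x ^ 2) (p + 1) n = ∑ m ∈ range (n + 1), (x ^ 2) ^ (m * (m + 1)) * qb (x ^ 2) n m
        * (-x * ∑ k ∈ range (n + 1), cc x p k * sj x 1 k * fk (x ^ 2) k m) := by
      rw [cf]
      apply sum_congr rfl
      intro m hm
      rw [h1 m hm]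
    have h6 : -cf (x ^ 2) (p + 1) n / x = ∑ m ∈ range (n + 1), ∑ k ∈ range (n + 1),
        cc x p k * sj x 1 k * ((x ^ 2) ^ (m * (m + 1)) * qb (x ^ 2) n m * fk (x ^ 2) k m) := by
      rw [h5, neg_div, sum_div, ← sum_neg_distrib]
      apply sum_congr rfl
      intro m _
      rw [mul_sum, mul_sum, sum_div, ← sum_neg_distrib]
      apply sum_congr rfl
      intro k _
      field_simp
    rw [h6, sum_comm]
    apply sum_congr rfl
    intro k hk
    rw [mem_range] at hk
    rw [← mul_sum, vand hq k n (by omega) h]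
    have e1 : cc x (p + 1) k = cc x p k * (x ^ 2) ^ (k * (k + 1)) := by
      unfold cc
      rw [← pow_mul, mul_assoc, ← pow_add]
      congr 2; ring
    rw [e1]; ring

theorem gen_aux {x : ℂ} (hx : x ≠ 0) (p : ℕ) : ∀ j n : ℕ, Gn (x ^ 2) n →
    Bf x p j n = ∑ k ∈ range (n + 1), cc x p k * sj x j k * vv (x ^ 2) n k := by
  intro j
  induction j using Nat.strong_induction_on with
  | _ j ih =>
    match j with
    | 0 =>
      intro n _
      rw [Bf]
      symm
      apply sum_eq_zero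
      intro k _
      simp [sj]
    | 1 =>
      intro n h
      rw [Bf]
      exact cf_formula hx p n h
    | j + 2 =>
      intro n h
      have hxn : x ^ (2 * n + 1) ≠ 0 := pow_ne_zero _ hx
      have h1 := ih (j + 1) (by omega) n h
      have h0 := ih j (by omega) n h
      rw [Bf, h1, h0]
      have e4 : x ^ (4 * n + 2) = x ^ (2 * n + 1) * x ^ (2 * n + 1) := by
        rw [← pow_add]; congr 1; omega
      have key : (1 - x ^ (2 * n)) * Bf x p (j + 1) (n - 1)
          = ∑ k ∈ range (n + 1), cc x p k * sj x (j + 1) k * ((1 + x ^ (2 * n + 1) * x ^ (2 * n + 1)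
            - x ^ (2 * n + 1) * (x ^ (2 * k + 1) + (x⁻¹) ^ (2 * k + 1))) * vv (x ^ 2) n k) := by
        cases n with
        | zero =>
          have e1 : x * x⁻¹ = 1 := mul_inv_cancel₀ hx
          simp only [Nat.mul_zero, pow_zero, sub_self, zero_mul, zero_add, range_one,
            sum_singleton, pow_one]
          linear_combination (cc x p 0 * sj x (j + 1) 0 * vv (x ^ 2) 0 0) * e1
        | succ n =>
          rw [Nat.add_sub_cancel, ih (j + 1) (by omega) n (h.mono (by omega)), mul_sum,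
            sum_range_succ _ (n + 1)]
          have e2 : (1 + x ^ (2 * (n + 1) + 1) * x ^ (2 * (n + 1) + 1) - x ^ (2 * (n + 1) + 1)
              * (x ^ (2 * (n + 1) + 1) + (x⁻¹) ^ (2 * (n + 1) + 1))) = 0 := by
            have : x ^ (2 * (n + 1) + 1) * (x⁻¹) ^ (2 * (n + 1) + 1) = 1 := by
              rw [← mul_pow, mul_inv_cancel₀ hx, one_pow]
            linear_combination -this
          rw [e2, zero_mul, mul_zero, add_zero]
          apply sum_congr rfl
          intro k hk
          rw [mem_range] at hk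
          have h3 := vv_rec (q := x ^ 2) (n := n) (k := k) (by omega) h
          obtain ⟨d, hd⟩ : ∃ d, n + 1 = k + d := ⟨n + 1 - k, by omega⟩
          have e5 : n + 1 - k = d := by omega
          rw [e5] at h3
          have e6 : (x ^ 2) ^ (n + 1) = x ^ (2 * (n + 1)) := by rw [← pow_mul]
          have e7 : (x ^ 2) ^ d = x ^ (2 * (n + 1) + 1) * (x⁻¹) ^ (2 * k + 1) := by
            have : 2 * (n + 1) + 1 = 2 * d + (2 * k + 1) := by omega
            rw [this, pow_add, mul_assoc, ← mul_pow, mul_inv_cancel₀ hx, one_pow, mul_one, pow_mul]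
          have e8 : (x ^ 2) ^ (n + k + 2) = x ^ (2 * (n + 1) + 1) * x ^ (2 * k + 1) := by
            rw [← pow_mul, ← pow_add]; congr 1; omega
          have e9 : x ^ (2 * k + 1) * (x⁻¹) ^ (2 * k + 1) = 1 := by
            rw [← mul_pow, mul_inv_cancel₀ hx, one_pow]
          rw [e6, e7, e8] at h3
          linear_combination (cc x p k * sj x (j + 1) k) * h3
            + (cc x p k * sj x (j + 1) k * x ^ (2 * (n + 1) + 1) * x ^ (2 * (n + 1) + 1)
              * vv (x ^ 2) (n + 1) k) * e9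
      rw [key, mul_sum, ← sum_sub_distrib, sum_div, ← sum_sub_distrib]
      apply sum_congr rfl
      intro k _
      rw [sj_rec hx, e4, div_sub' hxn, div_eq_iff hxn]
      ring

/-- **GEN** -/
theorem gen : S_gen := by
  intro x hx n h p j
  have h1 : Gn (x ^ 2) n := by
    intro i h2 h3
    rw [← pow_mul]
    exact h i h2 h3
  rw [gen_aux hx p j n h1]
  rfl

end Pool.Agent.Q129.VC.Gen
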